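import Pool.Agent.H38.Queens.Main

/-!
# The nonattacking queens game on the 12 × 12 board: Second wins
-/

namespace Pool.Agent.Results.MP_cf4457_co.SecondWinsTwelve

open Pool.Agent.H38.Queens

/-- On the `12 × 12` board Second has a winning strategy, and First has none. -/
theorem result : SecondWins 12 ∧ ¬ FirstWins 12 :=
  ⟨second_wins, fun h => MoverLoses.not_wins second_wins h⟩

end Pool.Agent.Results.MP_cf4457_co.SecondWinsTwelve
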